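import Pool.Agent.N641.VB.Stm6
import Pool.Agent.N619.VB.EX3

set_option autoImplicit false

/-!
# Project VB (helper641), part EXA (helper106): transfer of the interpreted structure
-/

namespace Pool.Agent.N106.VB

open FirstOrder FirstOrder.Language Pool.Agent.N641.VB Pool.Agent.N619.VB

/-- a pair of tuples -/
def pr {α : Type} {r : ℕ} (x y : Fin r → α) : Fin 2 × Fin r → α :=
  fun a => if a.1 = 0 then x a.2 else y a.2

theorem pr_zero {α : Type} {r : ℕ} (x y : Fin r → α) : (fun j => pr x y (0, j)) = x := by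
  funext j
  simp [pr]

theorem pr_one {α : Type} {r : ℕ} (x y : Fin r → α) : (fun j => pr x y (1, j)) = y := by
  funext j
  simp [pr]

theorem pr_eta {α : Type} {r : ℕ} (v : Fin 2 × Fin r → α) :
    pr (fun j => v (0, j)) (fun j => v (1, j)) = v := by
  funext ⟨i, j⟩
  fin_cases i <;> simp [pr]

/-- `l + 1` tuples -/
def sn {α : Type} {l r : ℕ} (v : Fin l × Fin r → α) (y : Fin r → α) : Fin (l + 1) × Fin r → α :=
  fun a => (Fin.snoc (fun i c => v (i, c)) y : Fin (l + 1) → Fin r → α) a.1 a.2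

theorem sn_castSucc {α : Type} {l r : ℕ} (v : Fin l × Fin r → α) (y : Fin r → α) (i : Fin l) :
    (fun j => sn v y (i.castSucc, j)) = fun j => v (i, j) := by
  funext j
  simp only [sn, Fin.snoc_castSucc]

theorem sn_last {α : Type} {l r : ℕ} (v : Fin l × Fin r → α) (y : Fin r → α) :
    (fun j => sn v y (Fin.last l, j)) = y := by
  funext j
  simp only [sn, Fin.snoc_last]

theorem pr_comp {α k : Type} {r : ℕ} (v : k → α) (X Y : Fin r → k) (a : Fin 2 × Fin r) :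
    pr (fun c => v (X c)) (fun c => v (Y c)) a = v (pr X Y a) := by
  unfold pr
  split_ifs <;> rfl

theorem sn_comp {α k : Type} {l r : ℕ} (v : k → α) (X : Fin l × Fin r → k) (Y : Fin r → k)
    (a : Fin (l + 1) × Fin r) :
    sn (fun c => v (X c)) (fun c => v (Y c)) a = v (sn X Y a) := by
  obtain ⟨a, c⟩ := a
  exact snoc_comp v (fun i c => X (i, c)) Y a c

/-- transfer of definable predicates -/
theorem tr6 {M : Type} {n' : ℕ} {bo bo' : BooleanAlgebra ℕ} {mu mu' : ℕ → M} {q q' : Fin n' → ℕ}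
    (h : SameF bo bo' mu mu' q q') {P : (ℕ → ℕ → Prop) → (ℕ → M) → (Fin n' → ℕ) → Prop}
    (hP : Dn P) : P bo.le mu q → P bo'.le mu' q' := by
  obtain ⟨χ, hχ⟩ := hP
  intro h1
  rw [← hχ] at h1 ⊢
  exact (h χ).1 h1

theorem dNot {M : Type} {k : Type} {P : (ℕ → ℕ → Prop) → (ℕ → M) → (k → ℕ) → Prop} (hP : Dn P) :
    Dn (fun le mu v => ¬ P le mu v) := by
  obtain ⟨χ, hχ⟩ := hP
  refine ⟨χ.not, fun le mu v => ?_⟩
  change _ ↔ ¬ P le mu v
  rw [← hχ]
  exact @Formula.realize_not (LM M) ℕ (str le mu) k χ v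

section preds

variable {L : FirstOrder.Language.{0, 0}} {M : Type} (σ : Sc6 L M)

/-- representatives -/
def De (le : ℕ → ℕ → Prop) (mu : ℕ → M) (q : Fin σ.n' → ℕ) (x : Fin σ.r → ℕ) : Prop :=
  Rz le mu σ.δ (Sum.elim q x)

/-- equality -/
def Ep (le : ℕ → ℕ → Prop) (mu : ℕ → M) (q : Fin σ.n' → ℕ) (x y : Fin σ.r → ℕ) : Prop :=
  Rz le mu σ.ε (Sum.elim q (pr x y))

theorem dDe {k : Type} (a : Fin σ.n' → k) (b : Fin σ.r → k) :
    Dn (M := M) (fun le mu (v : k → ℕ) => De σ le mu (fun i => v (a i)) (fun i => v (b i))) := by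
  unfold De
  exact Dn.atom σ.δ (Sum.elim a b) _ (by rintro v (j | c) <;> rfl)

theorem dEp {k : Type} (a : Fin σ.n' → k) (b b' : Fin σ.r → k) :
    Dn (M := M) (fun le mu (v : k → ℕ) => Ep σ le mu (fun i => v (a i)) (fun i => v (b i))
      (fun i => v (b' i))) := by
  unfold Ep
  refine Dn.atom σ.ε (Sum.elim a (pr b b')) _ ?_
  rintro v (j | c)
  · rfl
  · exact pr_comp v b b' c

def PR (le : ℕ → ℕ → Prop) (mu : ℕ → M) (q : Fin σ.n' → ℕ) : Prop :=
  ∀ x : Fin σ.r → ℕ, De σ le mu q x → Ep σ le mu q x x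

theorem dPR : Dn (PR σ) := by
  unfold PR
  refine Dn.all (Dn.imp ?_ ?_)
  · exact dDe σ (fun i => Sum.inl i) (fun i => Sum.inr i)
  · exact dEp σ (fun i => Sum.inl i) (fun i => Sum.inr i) (fun i => Sum.inr i)

def PS (le : ℕ → ℕ → Prop) (mu : ℕ → M) (q : Fin σ.n' → ℕ) : Prop :=
  ∀ x : Fin σ.r → ℕ, ∀ y : Fin σ.r → ℕ, De σ le mu q x → De σ le mu q y → Ep σ le mu q x y →
    Ep σ le mu q y x

theorem dPS : Dn (PS σ) := by
  unfold PS
  refine Dn.all (Dn.all (Dn.imp ?_ (Dn.imp ?_ (Dn.imp ?_ ?_))))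
  · exact dDe σ (fun i => Sum.inl (Sum.inl i)) (fun i => Sum.inl (Sum.inr i))
  · exact dDe σ (fun i => Sum.inl (Sum.inl i)) (fun i => Sum.inr i)
  · exact dEp σ (fun i => Sum.inl (Sum.inl i)) (fun i => Sum.inl (Sum.inr i)) (fun i => Sum.inr i)
  · exact dEp σ (fun i => Sum.inl (Sum.inl i)) (fun i => Sum.inr i) (fun i => Sum.inl (Sum.inr i))

def PT (le : ℕ → ℕ → Prop) (mu : ℕ → M) (q : Fin σ.n' → ℕ) : Prop :=
  ∀ x : Fin σ.r → ℕ, ∀ y : Fin σ.r → ℕ, ∀ z : Fin σ.r → ℕ, De σ le mu q x → De σ le mu q y →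
    De σ le mu q z → Ep σ le mu q x y → Ep σ le mu q y z → Ep σ le mu q x z

theorem dPT : Dn (PT σ) := by
  unfold PT
  refine Dn.all (Dn.all (Dn.all (Dn.imp ?_ (Dn.imp ?_ (Dn.imp ?_ (Dn.imp ?_ (Dn.imp ?_ ?_)))))))
  · exact dDe σ (fun i => Sum.inl (Sum.inl (Sum.inl i))) (fun i => Sum.inl (Sum.inl (Sum.inr i)))
  · exact dDe σ (fun i => Sum.inl (Sum.inl (Sum.inl i))) (fun i => Sum.inl (Sum.inr i))
  · exact dDe σ (fun i => Sum.inl (Sum.inl (Sum.inl i))) (fun i => Sum.inr i)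
  · exact dEp σ (fun i => Sum.inl (Sum.inl (Sum.inl i))) (fun i => Sum.inl (Sum.inl (Sum.inr i)))
      (fun i => Sum.inl (Sum.inr i))
  · exact dEp σ (fun i => Sum.inl (Sum.inl (Sum.inl i))) (fun i => Sum.inl (Sum.inr i))
      (fun i => Sum.inr i)
  · exact dEp σ (fun i => Sum.inl (Sum.inl (Sum.inl i))) (fun i => Sum.inl (Sum.inl (Sum.inr i)))
      (fun i => Sum.inr i)

def PN (N : ℕ) (le : ℕ → ℕ → Prop) (mu : ℕ → M) (q : Fin σ.n' → ℕ) : Prop :=
  ∃ x : Fin N × Fin σ.r → ℕ, (∀ i : Fin N, De σ le mu q (fun c => x (i, c))) ∧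
    ∀ p : {p : Fin N × Fin N // p.1 ≠ p.2},
      ¬ Ep σ le mu q (fun c => x (p.1.1, c)) (fun c => x (p.1.2, c))

theorem dPN (N : ℕ) : Dn (PN σ N) := by
  unfold PN
  refine Dn.ex (Dn.and (Dn.fin fun i => ?_) (Dn.fin fun p => dNot ?_))
  · exact dDe σ (fun i => Sum.inl i) (fun c => Sum.inr (i, c))
  · exact dEp σ (fun i => Sum.inl i) (fun c => Sum.inr (p.1.1, c)) (fun c => Sum.inr (p.1.2, c))

/-- invariance -/
def PI (l : ℕ) (χ : (LM M).Formula (Fin σ.n' ⊕ Fin l × Fin σ.r)) (le : ℕ → ℕ → Prop) (mu : ℕ → M)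
    (q : Fin σ.n' → ℕ) : Prop :=
  ∀ v : Fin l × Fin σ.r → ℕ, ∀ w : Fin l × Fin σ.r → ℕ,
    (∀ i : Fin l, De σ le mu q (fun c => v (i, c))) →
    (∀ i : Fin l, De σ le mu q (fun c => w (i, c))) →
    (∀ i : Fin l, Ep σ le mu q (fun c => v (i, c)) (fun c => w (i, c))) →
    (Rz le mu χ (Sum.elim q v) → Rz le mu χ (Sum.elim q w))

theorem dPI (l : ℕ) (χ : (LM M).Formula (Fin σ.n' ⊕ Fin l × Fin σ.r)) : Dn (PI σ l χ) := by
  unfold PI
  refine Dn.all (Dn.all (Dn.imp (Dn.fin fun i => ?_) (Dn.imp (Dn.fin fun i => ?_)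
    (Dn.imp (Dn.fin fun i => ?_) (Dn.imp ?_ ?_)))))
  · exact dDe σ (fun i => Sum.inl (Sum.inl i)) (fun c => Sum.inl (Sum.inr (i, c)))
  · exact dDe σ (fun i => Sum.inl (Sum.inl i)) (fun c => Sum.inr (i, c))
  · exact dEp σ (fun i => Sum.inl (Sum.inl i)) (fun c => Sum.inl (Sum.inr (i, c)))
      (fun c => Sum.inr (i, c))
  · exact Dn.atom χ (Sum.elim (fun j => Sum.inl (Sum.inl j)) (fun a => Sum.inl (Sum.inr a))) _
      (by rintro v (j | c) <;> rfl)
  · exact Dn.atom χ (Sum.elim (fun j => Sum.inl (Sum.inl j)) (fun a => Sum.inr a)) _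
      (by rintro v (j | c) <;> rfl)

def PE (l : ℕ) (F : L.Functions l) (le : ℕ → ℕ → Prop) (mu : ℕ → M) (q : Fin σ.n' → ℕ) : Prop :=
  ∀ v : Fin l × Fin σ.r → ℕ, (∀ i : Fin l, De σ le mu q (fun c => v (i, c))) →
    ∃ y : Fin σ.r → ℕ, De σ le mu q y ∧ Rz le mu (σ.γ l F) (Sum.elim q (sn v y))

theorem dPE (l : ℕ) (F : L.Functions l) : Dn (PE σ l F) := by
  unfold PE
  refine Dn.all (Dn.imp (Dn.fin fun i => ?_) (Dn.ex (Dn.and ?_ ?_)))
  · exact dDe σ (fun i => Sum.inl i) (fun c => Sum.inr (i, c))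
  · exact dDe σ (fun i => Sum.inl (Sum.inl i)) (fun c => Sum.inr c)
  · refine Dn.atom (σ.γ l F) (Sum.elim (fun j => Sum.inl (Sum.inl j))
      (sn (fun a => Sum.inl (Sum.inr a)) (fun c => Sum.inr c))) _ ?_
    rintro v (j | c)
    · rfl
    · exact sn_comp v (fun a => Sum.inl (Sum.inr a)) (fun c => Sum.inr c) c

def PU (l : ℕ) (F : L.Functions l) (le : ℕ → ℕ → Prop) (mu : ℕ → M) (q : Fin σ.n' → ℕ) : Prop :=
  ∀ v : Fin l × Fin σ.r → ℕ, ∀ y : Fin σ.r → ℕ, ∀ y' : Fin σ.r → ℕ,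
    (∀ i : Fin l, De σ le mu q (fun c => v (i, c))) → De σ le mu q y → De σ le mu q y' →
    Rz le mu (σ.γ l F) (Sum.elim q (sn v y)) → Rz le mu (σ.γ l F) (Sum.elim q (sn v y')) →
    Ep σ le mu q y y'

theorem dPU (l : ℕ) (F : L.Functions l) : Dn (PU σ l F) := by
  unfold PU
  refine Dn.all (Dn.all (Dn.all (Dn.imp (Dn.fin fun i => ?_) (Dn.imp ?_ (Dn.imp ?_
    (Dn.imp ?_ (Dn.imp ?_ ?_)))))))
  · exact dDe σ (fun i => Sum.inl (Sum.inl (Sum.inl i)))
      (fun c => Sum.inl (Sum.inl (Sum.inr (i, c))))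
  · exact dDe σ (fun i => Sum.inl (Sum.inl (Sum.inl i))) (fun c => Sum.inl (Sum.inr c))
  · exact dDe σ (fun i => Sum.inl (Sum.inl (Sum.inl i))) (fun c => Sum.inr c)
  · refine Dn.atom (σ.γ l F) (Sum.elim (fun j => Sum.inl (Sum.inl (Sum.inl j)))
      (sn (fun a => Sum.inl (Sum.inl (Sum.inr a))) (fun c => Sum.inl (Sum.inr c)))) _ ?_
    rintro v (j | c)
    · rfl
    · exact sn_comp v (fun a => Sum.inl (Sum.inl (Sum.inr a))) (fun c => Sum.inl (Sum.inr c)) c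
  · refine Dn.atom (σ.γ l F) (Sum.elim (fun j => Sum.inl (Sum.inl (Sum.inl j)))
      (sn (fun a => Sum.inl (Sum.inl (Sum.inr a))) (fun c => Sum.inr c))) _ ?_
    rintro v (j | c)
    · rfl
    · exact sn_comp v (fun a => Sum.inl (Sum.inl (Sum.inr a))) (fun c => Sum.inr c) c
  · exact dEp σ (fun i => Sum.inl (Sum.inl (Sum.inl i))) (fun c => Sum.inl (Sum.inr c))
      (fun c => Sum.inr c)

end preds

section first

variable {L : FirstOrder.Language.{0, 0}} {M : Type} {σ : Sc6 L M} {S : L.Structure ℕ}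
  {bo : BooleanAlgebra ℕ} {mu : ℕ → M} {q : Fin σ.n' → ℕ} {g : (Fin σ.r → ℕ) → ℕ}

theorem ep6 (h : @In6 L M σ ℕ bo mu q ℕ S g) {x y : Fin σ.r → ℕ} (hx : De σ bo.le mu q x)
    (hy : De σ bo.le mu q y) : Ep σ bo.le mu q x y ↔ g x = g y := by
  have h1 := h.eq (pr x y) (by
    intro i
    fin_cases i
    · change @Formula.Realize (LM M) ℕ (str bo.le mu) _ σ.δ (Sum.elim q fun j => pr x y (0, j))
      rw [pr_zero]
      exact hx
    · change @Formula.Realize (LM M) ℕ (str bo.le mu) _ σ.δ (Sum.elim q fun j => pr x y (1, j))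
      rw [pr_one]
      exact hy)
  rw [pr_zero, pr_one] at h1
  exact h1

theorem pi6 (h : @In6 L M σ ℕ bo mu q ℕ S g) {l : ℕ}
    (χ : (LM M).Formula (Fin σ.n' ⊕ Fin l × Fin σ.r)) (T : (Fin l → ℕ) → Prop)
    (hT : ∀ v : Fin l × Fin σ.r → ℕ, (∀ i : Fin l, De σ bo.le mu q (fun c => v (i, c))) →
      (Rz bo.le mu χ (Sum.elim q v) ↔ T fun i => g fun j => v (i, j))) :
    PI σ l χ bo.le mu q := by
  intro v w hv hw hvw h1
  rw [hT v hv] at h1
  rw [hT w hw]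
  have h2 : (fun i => g fun j => w (i, j)) = fun i => g fun j => v (i, j) := by
    funext i
    exact ((ep6 h (hv i) (hw i)).1 (hvw i)).symm
  rw [h2]
  exact h1

theorem pn6 (h : @In6 L M σ ℕ bo mu q ℕ S g) (N : ℕ) : PN σ N bo.le mu q := by
  choose x hx1 hx2 using h.onto
  refine ⟨fun a => x a.1.1 a.2, fun i => hx1 i.1, ?_⟩
  rintro ⟨⟨i, j⟩, hij⟩ h1
  have h2 := (ep6 h (hx1 i.1) (hx1 j.1)).1 h1
  rw [hx2, hx2] at h2
  exact hij (Fin.ext h2)

theorem gm6 (h : @In6 L M σ ℕ bo mu q ℕ S g) (l : ℕ) (F : L.Functions l)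
    (v : Fin l × Fin σ.r → ℕ) (hv : ∀ i : Fin l, De σ bo.le mu q (fun c => v (i, c)))
    (y : Fin σ.r → ℕ) (hy : De σ bo.le mu q y) :
    Rz bo.le mu (σ.γ l F) (Sum.elim q (sn v y)) ↔
      @Structure.funMap L ℕ S l F (fun i => g fun j => v (i, j)) = g y := by
  have h1 := h.fun_ l F (sn v y) (by
    intro i
    refine Fin.lastCases ?_ (fun i => ?_) i
    · rw [sn_last]
      exact hy
    · rw [sn_castSucc]
      exact hv i)
  rw [sn_last] at h1
  have h2 : (fun i : Fin l => g fun j => sn v y (i.castSucc, j)) = fun i => g fun j => v (i, j) := by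
    funext i
    rw [sn_castSucc]
  rw [h2] at h1
  exact h1

theorem pe6 (h : @In6 L M σ ℕ bo mu q ℕ S g) (l : ℕ) (F : L.Functions l) :
    PE σ l F bo.le mu q := by
  intro v hv
  obtain ⟨y, hy1, hy2⟩ := h.onto (@Structure.funMap L ℕ S l F (fun i => g fun j => v (i, j)))
  exact ⟨y, hy1, (gm6 h l F v hv y hy1).2 hy2.symm⟩

theorem pu6 (h : @In6 L M σ ℕ bo mu q ℕ S g) (l : ℕ) (F : L.Functions l) :
    PU σ l F bo.le mu q := by
  intro v y y' hv hy hy' h1 h2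
  rw [ep6 h hy hy', ← (gm6 h l F v hv y hy).1 h1, ← (gm6 h l F v hv y' hy').1 h2]

end first

section second

variable {L : FirstOrder.Language.{0, 0}} {M : Type} (σ : Sc6 L M)
  (bo : BooleanAlgebra ℕ) (mu : ℕ → M) (q : Fin σ.n' → ℕ)

/-- the equivalence relation -/
def St (h1 : PR σ bo.le mu q) (h2 : PS σ bo.le mu q) (h3 : PT σ bo.le mu q) :
    Setoid {x : Fin σ.r → ℕ // De σ bo.le mu q x} where
  r x y := Ep σ bo.le mu q x.1 y.1
  iseqv := ⟨fun x => h1 x.1 x.2, fun {x y} h => h2 x.1 y.1 x.2 y.2 h,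
    fun {x y z} h h' => h3 x.1 y.1 z.1 x.2 y.2 z.2 h h'⟩

theorem build (h1 : PR σ bo.le mu q) (h2 : PS σ bo.le mu q) (h3 : PT σ bo.le mu q)
    (h4 : ∀ N, PN σ N bo.le mu q)
    (h5 : ∀ (l : ℕ) (R : L.Relations l), PI σ l (σ.ρ l R) bo.le mu q)
    (h6 : ∀ (l : ℕ) (F : L.Functions l), PI σ (l + 1) (σ.γ l F) bo.le mu q)
    (h7 : ∀ (l : ℕ) (F : L.Functions l), PE σ l F bo.le mu q)
    (h8 : ∀ (l : ℕ) (F : L.Functions l), PU σ l F bo.le mu q) :
    ∃ (S' : L.Structure ℕ) (g' : (Fin σ.r → ℕ) → ℕ), @In6 L M σ ℕ bo mu q ℕ S' g' := by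
  classical
  let s := St σ bo mu q h1 h2 h3
  have hinf : Infinite (Quotient s) := by
    by_contra hc
    rw [not_infinite_iff_finite] at hc
    let _ := Fintype.ofFinite (Quotient s)
    obtain ⟨x, hx1, hx2⟩ := h4 (Fintype.card (Quotient s) + 1)
    have hi : Function.Injective (fun i : Fin (Fintype.card (Quotient s) + 1) =>
        (Quotient.mk s ⟨fun c => x (i, c), hx1 i⟩ : Quotient s)) := by
      intro i j hij
      by_contra hne
      exact hx2 ⟨(i, j), hne⟩ (Quotient.exact hij)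
    have h9 := Fintype.card_le_of_injective _ hi
    rw [Fintype.card_fin] at h9
    omega
  obtain ⟨e⟩ : Nonempty (Quotient s ≃ ℕ) := nonempty_equiv_of_countable
  let g' : (Fin σ.r → ℕ) → ℕ := fun x => if h : De σ bo.le mu q x then e (Quotient.mk s ⟨x, h⟩) else 0
  have hg' : ∀ (x : Fin σ.r → ℕ) (h : De σ bo.le mu q x), g' x = e (Quotient.mk s ⟨x, h⟩) :=
    fun x h => dif_pos h
  have hgE : ∀ (x y : Fin σ.r → ℕ), De σ bo.le mu q x → De σ bo.le mu q y →
      (Ep σ bo.le mu q x y ↔ g' x = g' y) := by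
    intro x y hx hy
    rw [hg' x hx, hg' y hy]
    constructor
    · intro h
      exact congrArg e (Quotient.sound h)
    · intro h
      exact Quotient.exact (e.injective h)
  have hrep : ∀ t : ℕ, ∃ x : Fin σ.r → ℕ, De σ bo.le mu q x ∧ g' x = t := by
    intro t
    obtain ⟨⟨x, hx⟩, hx'⟩ := Quotient.exists_rep (e.symm t)
    refine ⟨x, hx, ?_⟩
    rw [hg' x hx, hx', e.apply_symm_apply]
  choose rep hrep1 hrep2 using hrep
  have h7' : ∀ (l : ℕ) (F : L.Functions l) (w : Fin l → ℕ), ∃ y : Fin σ.r → ℕ,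
      De σ bo.le mu q y ∧ Rz bo.le mu (σ.γ l F) (Sum.elim q (sn (fun a => rep (w a.1) a.2) y)) :=
    fun l F w => h7 l F (fun a => rep (w a.1) a.2) (fun i => hrep1 (w i))
  choose fy hfy1 hfy2 using h7'
  let S' : L.Structure ℕ :=
    { funMap := fun {l} F w => g' (fy l F w)
      RelMap := fun {l} R w => Rz bo.le mu (σ.ρ l R) (Sum.elim q fun a => rep (w a.1) a.2) }
  refine ⟨S', g', ?_⟩
  refine @In6.mk L M σ ℕ bo mu q ℕ S' g' ?_ ?_ ?_ ?_
  · intro t
    exact ⟨rep t, hrep1 t, hrep2 t⟩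
  · intro v hv
    have h := hgE _ _ (hv 0) (hv 1)
    unfold Ep at h
    rw [pr_eta] at h
    exact h
  · intro l R v hv
    have hE : ∀ i : Fin l, Ep σ bo.le mu q (fun c => v (i, c)) (rep (g' fun c => v (i, c))) := by
      intro i
      rw [hgE _ _ (hv i) (hrep1 _), hrep2]
    change Rz bo.le mu (σ.ρ l R) (Sum.elim q v) ↔ Rz bo.le mu (σ.ρ l R)
      (Sum.elim q fun a => rep (g' fun c => v (a.1, c)) a.2)
    constructor
    · intro h
      exact h5 l R v (fun a => rep (g' fun c => v (a.1, c)) a.2) hv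
        (fun i => hrep1 (g' fun c => v (i, c))) hE h
    · intro h
      exact h5 l R (fun a => rep (g' fun c => v (a.1, c)) a.2) v
        (fun i => hrep1 (g' fun c => v (i, c))) hv
        (fun i => h2 _ _ (hv i) (hrep1 (g' fun c => v (i, c))) (hE i)) h
  · intro l F v hv
    have hE : ∀ i : Fin l, Ep σ bo.le mu q (fun c => v (i.castSucc, c))
        (rep (g' fun c => v (i.castSucc, c))) := by
      intro i
      rw [hgE _ _ (hv _) (hrep1 _), hrep2]
    change Rz bo.le mu (σ.γ l F) (Sum.elim q v) ↔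
      g' (fy l F (fun i => g' fun j => v (i.castSucc, j))) = g' (fun j => v (Fin.last l, j))
    set w : Fin l → ℕ := fun i => g' fun j => v (i.castSucc, j) with hw
    set z : Fin l × Fin σ.r → ℕ := fun a => rep (w a.1) a.2 with hz
    have hzD : ∀ i : Fin l, De σ bo.le mu q (fun c => z (i, c)) := fun i => hrep1 (w i)
    have hlast : De σ bo.le mu q (fun c => v (Fin.last l, c)) := hv _
    have hsD : ∀ y, De σ bo.le mu q y → ∀ i : Fin (l + 1),
        De σ bo.le mu q (fun c => sn z y (i, c)) := by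
      intro y hy i
      refine Fin.lastCases ?_ (fun i => ?_) i
      · rw [sn_last]
        exact hy
      · rw [sn_castSucc]
        exact hzD i
    have hsE : ∀ y, De σ bo.le mu q y → Ep σ bo.le mu q (fun c => v (Fin.last l, c)) y →
        ∀ i : Fin (l + 1), Ep σ bo.le mu q (fun c => v (i, c)) (fun c => sn z y (i, c)) := by
      intro y hy hy' i
      refine Fin.lastCases ?_ (fun i => ?_) i
      · rw [sn_last]
        exact hy'
      · rw [sn_castSucc]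
        exact hE i
    constructor
    · intro h
      have h9 := h6 l F v (sn z fun c => v (Fin.last l, c)) hv (hsD _ hlast)
        (hsE _ hlast (h1 _ hlast)) h
      have h10 := h8 l F z (fy l F w) (fun c => v (Fin.last l, c)) hzD (hfy1 l F w) hlast
        (hfy2 l F w) h9
      exact (hgE _ _ (hfy1 l F w) hlast).1 h10
    · intro h
      have h9 : Ep σ bo.le mu q (fun c => v (Fin.last l, c)) (fy l F w) :=
        (hgE _ _ hlast (hfy1 l F w)).2 h.symm
      exact h6 l F (sn z (fy l F w)) v (hsD _ (hfy1 l F w)) hv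
        (fun i => h2 _ _ (hv i) (hsD _ (hfy1 l F w) i) (hsE _ (hfy1 l F w) h9 i)) (hfy2 l F w)

end second

/-- task EXA -/
theorem EXA : S_EXA := by
  intro L M σ S bo bo' mu mu' q q' g h hS
  refine build σ bo' mu' q' ?_ ?_ ?_ ?_ ?_ ?_ ?_ ?_
  · exact tr6 hS (dPR σ) fun x hx => (ep6 h hx hx).2 rfl
  · exact tr6 hS (dPS σ) fun x y hx hy hxy => (ep6 h hy hx).2 ((ep6 h hx hy).1 hxy).symm
  · exact tr6 hS (dPT σ) fun x y z hx hy hz hxy hyz =>
      (ep6 h hx hz).2 (((ep6 h hx hy).1 hxy).trans ((ep6 h hy hz).1 hyz))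
  · exact fun N => tr6 hS (dPN σ N) (pn6 h N)
  · exact fun l R => tr6 hS (dPI σ l (σ.ρ l R))
      (pi6 h (σ.ρ l R) (fun u => @Structure.RelMap L ℕ S l R u) (fun v hv => @In6.rel L M σ ℕ bo mu q ℕ S g h l R v hv))
  · exact fun l F => tr6 hS (dPI σ (l + 1) (σ.γ l F))
      (pi6 h (σ.γ l F) (fun u => @Structure.funMap L ℕ S l F (fun i => u i.castSucc) =
        u (Fin.last l)) (fun v hv => @In6.fun_ L M σ ℕ bo mu q ℕ S g h l F v hv))
  · exact fun l F => tr6 hS (dPE σ l F) (pe6 h l F)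
  · exact fun l F => tr6 hS (dPU σ l F) (pu6 h l F)

end Pool.Agent.N106.VB
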